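import Pool.Agent.Lib.MP_e42343_co.Lower
import Pool.Agent.Lib.MP_e42343_co.UpperFin

/-!
# Principality fails for Hamilton cycles acceptable for two interval patterns

For `x = (3,1,1)` and `y = (2,2,1)` (so `r = 5`), `m(x,n)` and `m(y,n)` are both larger than
`n² / 17` for all large `n`, while `m(x,y,n) ≤ n² / 18` for every `n = 3^(k+1) + 2`, `k ≥ 1`.
Hence `m(x,y,n) ≤ (17/18) min{m(x,n), m(y,n)}` for infinitely many `n`, and the statement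
`m(x,y,n) = (1+o(1)) min{m(x,n), m(y,n)}` of the problem is false.
-/

namespace Pool.Agent.Results.MP_e42343_co.NotPrincipal

open Filter Asymptotics Topology Pool.Agent.Lib.MP_e42343_co

/-- The upper bound `m(x,y,n) ≤ n² / 18` for `n = 3^(k+1) + 2`. -/
lemma upper_m₂ (k : ℕ) (hk : 1 ≤ k) :
    (m₂ [3, 1, 1] [2, 2, 1] (3 ^ (k + 1) + 2) : ℝ) ≤ ((3 ^ (k + 1) + 2 : ℕ) : ℝ) ^ 2 / 18 := by
  obtain ⟨F, h5, hcard, hF⟩ := upper_fin k hk (3 ^ (k + 1) + 2) rfl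
  have h1 : m₂ [3, 1, 1] [2, 2, 1] (3 ^ (k + 1) + 2) ≤ F.card :=
    Nat.sInf_le ⟨F, fun A hA => (h5 A hA).trans rfl, rfl, hF⟩
  rw [le_div_iff₀ (by norm_num)]
  have h2 : m₂ [3, 1, 1] [2, 2, 1] (3 ^ (k + 1) + 2) * 18 ≤ (3 ^ (k + 1) + 2) ^ 2 := by
    omega
  exact_mod_cast h2

theorem result :
    -- both single minima are larger than `n² / 17` for all large `n`
    (∃ n₀ : ℕ, ∀ n ≥ n₀,
      (n : ℝ) ^ 2 / 17 < m [3, 1, 1] n ∧ (n : ℝ) ^ 2 / 17 < m [2, 2, 1] n) ∧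
    -- the joint minimum is at most `n² / 18` for `n = 3^(k+1) + 2`
    (∀ k ≥ 1, (m₂ [3, 1, 1] [2, 2, 1] (3 ^ (k + 1) + 2) : ℝ) ≤
      ((3 ^ (k + 1) + 2 : ℕ) : ℝ) ^ 2 / 18) ∧
    -- the negated form of the question, with `c = 17 / 18`
    (∃ᶠ n : ℕ in atTop, (m₂ [3, 1, 1] [2, 2, 1] n : ℝ) ≤
      17 / 18 * min (m [3, 1, 1] n : ℝ) (m [2, 2, 1] n)) ∧
    -- the statement asked about is false
    ¬ ∀ x y : List ℕ, x ≠ [] → y ≠ [] → (∀ a ∈ x, 0 < a) → (∀ a ∈ y, 0 < a) → x.sum = y.sum →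
      (fun n : ℕ => (m₂ x y n : ℝ)) ~[atTop] (fun n : ℕ => min (m x n : ℝ) (m y n)) := by
  obtain ⟨n₁, hn₁⟩ := lower221
  have hlow : ∃ n₀ : ℕ, ∀ n ≥ n₀,
      (n : ℝ) ^ 2 / 17 < m [3, 1, 1] n ∧ (n : ℝ) ^ 2 / 17 < m [2, 2, 1] n := by
    refine ⟨max n₁ (10 ^ 9), fun n hn => ⟨?_, ?_⟩⟩
    · have h := lower311 n ((le_max_right _ _).trans hn)
      rw [div_lt_iff₀ (by norm_num)]
      have h' : n ^ 2 < m [3, 1, 1] n * 17 := by omega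
      exact_mod_cast h'
    · have h := hn₁ n ((le_max_left _ _).trans hn)
      rw [div_lt_iff₀ (by norm_num)]
      have h' : n ^ 2 < m [2, 2, 1] n * 17 := by omega
      exact_mod_cast h'
  have hfreq : ∃ᶠ n : ℕ in atTop, (m₂ [3, 1, 1] [2, 2, 1] n : ℝ) ≤
      17 / 18 * min (m [3, 1, 1] n : ℝ) (m [2, 2, 1] n) := by
    obtain ⟨n₀, hn₀⟩ := hlow
    rw [frequently_atTop]
    intro N
    have hk : N + n₀ + 1 < 3 ^ (N + n₀ + 1) := Nat.lt_pow_self (by norm_num)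
    have hk' : 3 ^ (N + n₀ + 1) ≤ 3 ^ (N + n₀ + 1 + 1) := Nat.pow_le_pow_right (by norm_num)
      (by omega)
    have hge : n₀ ≤ 3 ^ (N + n₀ + 1 + 1) + 2 := by omega
    refine ⟨3 ^ (N + n₀ + 1 + 1) + 2, by omega, ?_⟩
    have h1 := upper_m₂ (N + n₀ + 1) (by omega)
    obtain ⟨h2, h3⟩ := hn₀ _ hge
    have h4 : ((3 ^ (N + n₀ + 1 + 1) + 2 : ℕ) : ℝ) ^ 2 / 17 ≤
        min (m [3, 1, 1] (3 ^ (N + n₀ + 1 + 1) + 2) : ℝ)
          (m [2, 2, 1] (3 ^ (N + n₀ + 1 + 1) + 2)) := le_min h2.le h3.le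
    linarith
  refine ⟨hlow, upper_m₂, hfreq, ?_⟩
  intro hall
  have h := hall [3, 1, 1] [2, 2, 1] (by simp) (by simp) (by simp) (by simp) rfl
  obtain ⟨n₀, hn₀⟩ := hlow
  have hpos : ∀ᶠ n : ℕ in atTop, 0 < min (m [3, 1, 1] n : ℝ) (m [2, 2, 1] n) := by
    filter_upwards [eventually_ge_atTop n₀] with n hn
    obtain ⟨h2, h3⟩ := hn₀ n hn
    have h0 : (0 : ℝ) ≤ (n : ℝ) ^ 2 / 17 := by positivity
    exact lt_min (h0.trans_lt h2) (h0.trans_lt h3)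
  rw [isEquivalent_iff_tendsto_one (hpos.mono fun n hn => hn.ne')] at h
  have h17 : ∀ᶠ n : ℕ in atTop, (17 / 18 : ℝ) <
      ((fun n : ℕ => (m₂ [3, 1, 1] [2, 2, 1] n : ℝ)) /
        (fun n : ℕ => min (m [3, 1, 1] n : ℝ) (m [2, 2, 1] n))) n :=
    h.eventually (lt_mem_nhds (by norm_num))
  obtain ⟨n, hn1, hn2, hn3⟩ := (hfreq.and_eventually (h17.and hpos)).exists
  simp only [Pi.div_apply] at hn2
  rw [lt_div_iff₀ hn3] at hn2
  linarith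

end Pool.Agent.Results.MP_e42343_co.NotPrincipal
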